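import Pool.Agent.NDR.StmtsC

/-!
# Row CEX of squad NDR (MP_b48657_ag): the functional equation as a polynomial identity
-/

set_option autoImplicit false

namespace Pool.Agent.NDR.H81

open Finset Pool.Agent.Helper6_Mono MvPolynomial

variable {σ : Type}

/-- `f ^ k / k!` -/
noncomputable def tw (f : MvPolynomial σ ℂ) (k : ℕ) : MvPolynomial σ ℂ :=
  C (1 / (k.factorial : ℂ)) * f ^ k

theorem tw_zero (f : MvPolynomial σ ℂ) : tw f 0 = 1 := by
  unfold tw
  simp

theorem tw_succ (f : MvPolynomial σ ℂ) (k : ℕ) :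
    f * tw f k = ((k + 1 : ℕ) : MvPolynomial σ ℂ) * tw f (k + 1) := by
  unfold tw
  have h1 : ((k + 1 : ℕ) : MvPolynomial σ ℂ) = C ((k + 1 : ℕ) : ℂ) := by simp
  have h2 : ((k + 1 : ℕ) : ℂ) * (1 / ((k + 1).factorial : ℂ)) = 1 / (k.factorial : ℂ) := by
    rw [Nat.factorial_succ]
    have h3 : ((k + 1 : ℕ) : ℂ) ≠ 0 := by exact_mod_cast Nat.succ_ne_zero k
    have h4 : (k.factorial : ℂ) ≠ 0 := by exact_mod_cast Nat.factorial_ne_zero k
    push_cast
    push_cast at h3
    field_simp
  have h5 := congrArg (C : ℂ → MvPolynomial σ ℂ) h2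
  rw [C_mul] at h5
  rw [h1, ← h5, pow_succ]
  ring

theorem tw_pderiv (f : MvPolynomial σ ℂ) (i : σ) (k : ℕ) :
    pderiv i (tw f (k + 1)) = pderiv i f * tw f k := by
  unfold tw
  rw [pderiv_C_mul, pderiv_pow]
  have h2 : (1 / ((k + 1).factorial : ℂ)) * ((k + 1 : ℕ) : ℂ) = 1 / (k.factorial : ℂ) := by
    rw [Nat.factorial_succ]
    have h3 : ((k + 1 : ℕ) : ℂ) ≠ 0 := by exact_mod_cast Nat.succ_ne_zero k
    have h4 : (k.factorial : ℂ) ≠ 0 := by exact_mod_cast Nat.factorial_ne_zero k
    push_cast
    push_cast at h3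
    field_simp
  have h1 : ((k + 1 : ℕ) : MvPolynomial σ ℂ) = C ((k + 1 : ℕ) : ℂ) := by simp
  rw [h1, Nat.add_sub_cancel, ← h2, C_mul]
  ring

theorem eqv_inc (q : MvPolynomial σ ℂ) : optionEquivLeft ℂ σ (inc q) = Polynomial.C q := by
  unfold inc
  induction q using MvPolynomial.induction_on with
  | C a => rw [rename_C, optionEquivLeft_C]
  | add p q hp hq => rw [map_add, map_add, hp, hq, Polynomial.C_add]
  | mul_X p i hp => rw [map_mul, map_mul, hp, rename_X, optionEquivLeft_X_some, Polynomial.C_mul]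

theorem inc_add (p q : MvPolynomial σ ℂ) : inc (p + q) = inc p + inc q := by
  unfold inc
  exact map_add _ _ _

theorem inc_mul (p q : MvPolynomial σ ℂ) : inc (p * q) = inc p * inc q := by
  unfold inc
  exact map_mul _ _ _

theorem inc_nat (n : ℕ) : inc (n : MvPolynomial σ ℂ) = (n : MvPolynomial (Option σ) ℂ) := by
  unfold inc
  exact map_natCast _ _

theorem pd_none (q : MvPolynomial σ ℂ) : pderiv none (inc q) = 0 := by
  classical
  unfold inc
  induction q using MvPolynomial.induction_on with
  | C a => rw [rename_C, pderiv_C]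
  | add p q hp hq => rw [map_add, map_add, hp, hq, add_zero]
  | mul_X p i hp =>
    rw [map_mul, pderiv_mul, hp, rename_X, pderiv_X_of_ne (by simp)]
    simp

theorem pd_some (i : σ) (q : MvPolynomial σ ℂ) : pderiv (some i) (inc q) = inc (pderiv i q) := by
  classical
  unfold inc
  induction q using MvPolynomial.induction_on with
  | C a => rw [rename_C, pderiv_C, pderiv_C, map_zero]
  | add p q hp hq => rw [map_add, map_add, hp, hq, map_add, map_add]
  | mul_X p j hp =>
    rw [map_mul, pderiv_mul, hp, rename_X, pderiv_mul, map_add, map_mul, map_mul, rename_X]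
    congr 2
    by_cases h : i = j
    · rw [h, pderiv_X_self, pderiv_X_self, map_one]
    · rw [pderiv_X_of_ne (fun h' => h (Option.some_injective _ h').symm),
        pderiv_X_of_ne (fun h' => h h'.symm), map_zero]

/-- the coefficient of `z ^ n` of `P e ^ (z f)` -/
noncomputable def cn (f : MvPolynomial σ ℂ) (n : ℕ) : MvPolynomial (Option σ) ℂ →+ MvPolynomial σ ℂ where
  toFun P := ∑ j ∈ range (n + 1), (optionEquivLeft ℂ σ P).coeff j * tw f (n - j)
  map_zero' := by simp
  map_add' P Q := by
    rw [← Finset.sum_add_distrib]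
    refine Finset.sum_congr rfl fun j _ => ?_
    rw [map_add, Polynomial.coeff_add, add_mul]

theorem cn_def (f : MvPolynomial σ ℂ) (n : ℕ) (P : MvPolynomial (Option σ) ℂ) :
    cn f n P = ∑ j ∈ range (n + 1), (optionEquivLeft ℂ σ P).coeff j * tw f (n - j) := rfl

theorem cn_mon (f : MvPolynomial σ ℂ) (n j : ℕ) (q : MvPolynomial σ ℂ) :
    cn f n (inc q * X none ^ j) = if j ≤ n then q * tw f (n - j) else 0 := by
  rw [cn_def]
  have h1 : ∀ k, (optionEquivLeft ℂ σ (inc q * X none ^ j)).coeff k = if k = j then q else 0 := by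
    intro k
    rw [map_mul, map_pow, eqv_inc, optionEquivLeft_X_none, Polynomial.coeff_C_mul_X_pow]
  simp only [h1]
  by_cases hj : j ≤ n
  · rw [if_pos hj, Finset.sum_eq_single j]
    · rw [if_pos rfl]
    · intro k _ hk
      rw [if_neg hk, zero_mul]
    · intro hk
      exact absurd (Finset.mem_range.mpr (by omega)) hk
  · rw [if_neg hj]
    refine Finset.sum_eq_zero fun k hk => ?_
    rw [if_neg (by have := Finset.mem_range.mp hk; omega), zero_mul]

theorem cn_inc (f : MvPolynomial σ ℂ) (n : ℕ) (a : MvPolynomial σ ℂ)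
    (P : MvPolynomial (Option σ) ℂ) : cn f n (inc a * P) = a * cn f n P := by
  rw [cn_def, cn_def, Finset.mul_sum]
  refine Finset.sum_congr rfl fun j _ => ?_
  rw [map_mul, eqv_inc, Polynomial.coeff_C_mul, mul_assoc]

theorem cn_inj (f : MvPolynomial σ ℂ) {P Q : MvPolynomial (Option σ) ℂ}
    (h : ∀ n, cn f n P = cn f n Q) : P = Q := by
  apply (optionEquivLeft ℂ σ).injective
  refine Polynomial.ext fun n => ?_
  induction n using Nat.strong_induction_on with
  | _ n ih =>
    have h1 := h n
    rw [cn_def, cn_def, Finset.sum_range_succ, Finset.sum_range_succ, Nat.sub_self, tw_zero,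
      mul_one, mul_one] at h1
    have h2 : ∑ j ∈ range n, (optionEquivLeft ℂ σ P).coeff j * tw f (n - j) =
        ∑ j ∈ range n, (optionEquivLeft ℂ σ Q).coeff j * tw f (n - j) :=
      Finset.sum_congr rfl fun j hj => by rw [ih j (Finset.mem_range.mp hj)]
    rw [h2] at h1
    exact add_left_cancel h1

theorem ind {p : MvPolynomial (Option σ) ℂ → Prop} (hadd : ∀ a b, p a → p b → p (a + b))
    (hmon : ∀ (j : ℕ) (q : MvPolynomial σ ℂ), p (inc q * X none ^ j))
    (P : MvPolynomial (Option σ) ℂ) : p P := by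
  have h1 : ∀ Q : Polynomial (MvPolynomial σ ℂ), p ((optionEquivLeft ℂ σ).symm Q) := by
    intro Q
    induction Q using Polynomial.induction_on' with
    | add a b ha hb =>
      rw [map_add]
      exact hadd _ _ ha hb
    | monomial j q =>
      have h2 : (optionEquivLeft ℂ σ).symm (Polynomial.monomial j q) = inc q * X none ^ j := by
        rw [AlgEquiv.symm_apply_eq, map_mul, map_pow, eqv_inc, optionEquivLeft_X_none,
          Polynomial.C_mul_X_pow_eq_monomial]
      rw [h2]
      exact hmon j q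
  have h2 := h1 (optionEquivLeft ℂ σ P)
  rwa [AlgEquiv.symm_apply_apply] at h2

theorem tE_add (f : MvPolynomial (Option σ) ℂ) (s : ℂ) (P Q : MvPolynomial (Option σ) ℂ) :
    tE f s (P + Q) = tE f s P + tE f s Q := by
  unfold tE
  rw [map_add]
  ring

theorem dE_add (f : MvPolynomial (Option σ) ℂ) (i : σ) (P Q : MvPolynomial (Option σ) ℂ) :
    dE f i (P + Q) = dE f i P + dE f i Q := by
  unfold dE
  rw [map_add]
  ring

theorem cn_tE (f : MvPolynomial σ ℂ) (n : ℕ) (P : MvPolynomial (Option σ) ℂ) :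
    cn f n (tE (inc f) 0 P) = (n : MvPolynomial σ ℂ) * cn f n P := by
  induction P using ind with
  | hadd a b ha hb => rw [tE_add, map_add, map_add, ha, hb, mul_add]
  | hmon j q =>
    have h1 : tE (inc f) 0 (inc q * X none ^ j) =
        inc ((j : MvPolynomial σ ℂ) * q) * X none ^ j + inc (f * q) * X none ^ (j + 1) := by
      unfold tE
      rw [pderiv_mul, pd_none, pderiv_pow, pderiv_X_self, inc_mul, inc_mul, inc_nat, map_zero]
      rcases j with _ | j
      · simp only [Nat.cast_zero, zero_mul, pow_zero, mul_one, mul_zero, add_zero, zero_add,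
          pow_one, sub_self]
        ring
      · rw [Nat.add_sub_cancel]
        ring
    rw [h1, map_add, cn_mon, cn_mon, cn_mon]
    rcases lt_trichotomy j n with h | h | h
    · rw [if_pos h.le, if_pos (by omega), if_pos h.le]
      obtain ⟨k, rfl⟩ : ∃ k, n = j + 1 + k := ⟨n - (j + 1), by omega⟩
      have e1 : j + 1 + k - j = k + 1 := by omega
      have e2 : j + 1 + k - (j + 1) = k := by omega
      rw [e1, e2]
      have h2 := tw_succ f k
      calc (j : MvPolynomial σ ℂ) * q * tw f (k + 1) + f * q * tw f k =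
          (j : MvPolynomial σ ℂ) * q * tw f (k + 1) + q * (f * tw f k) := by ring
        _ = ((j + 1 + k : ℕ) : MvPolynomial σ ℂ) * (q * tw f (k + 1)) := by
            rw [h2]
            push_cast
            ring
    · rw [h, if_pos le_rfl, if_neg (by omega), if_pos le_rfl]
      ring
    · rw [if_neg (by omega), if_neg (by omega), if_neg (by omega)]
      ring

theorem cn_dE (f : MvPolynomial σ ℂ) (n : ℕ) (i : σ) (P : MvPolynomial (Option σ) ℂ) :
    cn f n (dE (inc f) i P) = pderiv i (cn f n P) := by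
  induction P using ind with
  | hadd a b ha hb => rw [dE_add, map_add, map_add, map_add, ha, hb]
  | hmon j q =>
    have h1 : dE (inc f) i (inc q * X none ^ j) =
        inc (pderiv i q) * X none ^ j + inc (pderiv i f * q) * X none ^ (j + 1) := by
      unfold dE
      rw [pderiv_mul, pd_some, pd_some, pderiv_pow, pderiv_X_of_ne (by simp), inc_mul]
      ring
    rw [h1, map_add, cn_mon, cn_mon, cn_mon]
    rcases lt_trichotomy j n with h | h | h
    · rw [if_pos h.le, if_pos (by omega), if_pos h.le]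
      obtain ⟨k, rfl⟩ : ∃ k, n = j + 1 + k := ⟨n - (j + 1), by omega⟩
      have e1 : j + 1 + k - j = k + 1 := by omega
      have e2 : j + 1 + k - (j + 1) = k := by omega
      rw [e1, e2, pderiv_mul, tw_pderiv]
      ring
    · rw [h, if_pos le_rfl, if_neg (by omega), if_pos le_rfl, Nat.sub_self, tw_zero, mul_one,
        mul_one, add_zero]
    · rw [if_neg (by omega), if_neg (by omega), if_neg (by omega), map_zero, add_zero]

theorem cn_iter (f : MvPolynomial σ ℂ) (n j : ℕ) (P : MvPolynomial (Option σ) ℂ) :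
    cn f n ((tE (inc f) 0)^[j] P) = (n : MvPolynomial σ ℂ) ^ j * cn f n P := by
  induction j with
  | zero => simp
  | succ j ih =>
    rw [Function.iterate_succ_apply', cn_tE, ih]
    ring

theorem cn_dEw (f : MvPolynomial σ ℂ) (n : ℕ) (w : List σ) (P : MvPolynomial (Option σ) ℂ) :
    cn f n (dEw (inc f) w P) = dWord w (cn f n P) := by
  induction w with
  | nil => rfl
  | cons i w ih =>
    have h1 : dEw (inc f) (i :: w) P = dE (inc f) i (dEw (inc f) w P) := rfl
    have h2 : dWord (i :: w) (cn f n P) = pderiv i (dWord w (cn f n P)) := rfl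
    rw [h1, h2, cn_dE, ih]

theorem dWord_C (w : List σ) (a : ℂ) (p : MvPolynomial σ ℂ) :
    dWord w (C a * p) = C a * dWord w p := by
  induction w with
  | nil => rfl
  | cons i w ih =>
    have h1 : ∀ q, dWord (i :: w) q = pderiv i (dWord w q) := fun q => rfl
    rw [h1, h1, ih, pderiv_C_mul]

theorem cn_one (f : MvPolynomial σ ℂ) (n : ℕ) : cn f n 1 = tw f n := by
  have h := cn_mon f n 0 1
  rw [if_pos (Nat.zero_le n), one_mul, pow_zero, mul_one, Nat.sub_zero] at h
  have hinc1 : inc (1 : MvPolynomial σ ℂ) = 1 := by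
    unfold inc
    exact map_one _
  rw [hinc1] at h
  exact h

theorem cn_list (f : MvPolynomial σ ℂ) (n : ℕ) (l : List (MvPolynomial (Option σ) ℂ)) :
    cn f n l.sum = (l.map (cn f n)).sum := map_list_sum (cn f n) l

/-- **CEX** -/
theorem cex : CexStmt := by
  intro σ _ f b P hP
  apply cn_inj f
  intro n
  have hl : cn f n (b.sum fun j c => C c * (tE (inc f) 0)^[j] 1) =
      C (1 / (n.factorial : ℂ)) * (C (b.eval (n : ℂ)) * f ^ n) := by
    rw [Polynomial.sum_def, map_sum, Polynomial.eval_eq_sum, Polynomial.sum_def, map_sum,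
      Finset.sum_mul, Finset.mul_sum]
    refine Finset.sum_congr rfl fun j _ => ?_
    have h1 : (C (b.coeff j) : MvPolynomial (Option σ) ℂ) = inc (C (b.coeff j)) := by
      unfold inc
      rw [rename_C]
    rw [h1, cn_inc, cn_iter, cn_one]
    unfold tw
    rw [C_mul, C_pow]
    have h2 : (C (n : ℂ) : MvPolynomial σ ℂ) = (n : MvPolynomial σ ℂ) := by simp
    rw [h2]
    ring
  have hr : cn f n ((P.map fun aw => aw.1.sum fun j a =>
      inc a * (tE (inc f) 0)^[j] (dEw (inc f) aw.2 (inc f))).sum) =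
      C (1 / (n.factorial : ℂ)) *
        (P.map fun aw => aw.1.eval (n : MvPolynomial σ ℂ) * dWord aw.2 (f ^ (n + 1))).sum := by
    rw [cn_list, List.map_map, ← List.sum_map_mul_left]
    congr 1
    refine List.map_congr_left fun aw _ => ?_
    show cn f n (aw.1.sum fun j a => inc a * (tE (inc f) 0)^[j] (dEw (inc f) aw.2 (inc f))) =
      C (1 / (n.factorial : ℂ)) * (aw.1.eval (n : MvPolynomial σ ℂ) * dWord aw.2 (f ^ (n + 1)))
    have h1 : cn f n (inc f) = C (1 / (n.factorial : ℂ)) * f ^ (n + 1) := by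
      have h2 := cn_inc f n f 1
      rw [mul_one, cn_one] at h2
      rw [h2]
      unfold tw
      ring
    rw [Polynomial.sum_def, map_sum, Polynomial.eval_eq_sum, Polynomial.sum_def, Finset.sum_mul,
      Finset.mul_sum]
    refine Finset.sum_congr rfl fun j _ => ?_
    rw [cn_inc, cn_iter, cn_dEw, h1, dWord_C]
    ring
  rw [hl, hr, hP n]

end Pool.Agent.NDR.H81
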